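import Pool.Agent.H28.NW.Targets

/-!
# Averages over sub-windows: exchange of the sums (window form)
-/

set_option autoImplicit false

open Finset

namespace Pool.Agent.H40.NW.SWP

open Pool.Agent.H28.NW

/-- partial summation -/
theorem psum (S : ℕ → ℝ) (hS : ∀ n, 0 ≤ S n) (ε : ℝ) (a : ℕ) (ha : 1 ≤ a)
    (hP : ∀ N : ℕ, a ≤ N → ∑ z ∈ range N, S z ≤ ε * N) (b : ℕ) (hab : a ≤ b) :
    ∑ u ∈ Icc a b, S u / u ≤ (∑ z ∈ range (b + 1), S z) / b + ε * ∑ u ∈ Ico a b, 1 / (u : ℝ) := by
  induction b, hab using Nat.le_induction with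
  | base =>
    rw [Icc_self, sum_singleton, Ico_self, sum_empty, mul_zero, add_zero]
    have ha0 : (0 : ℝ) < a := by exact_mod_cast ha
    refine div_le_div_of_nonneg_right ?_ ha0.le
    rw [sum_range_succ]
    have := sum_nonneg (s := range a) (f := S) fun i _ => hS i
    linarith
  | succ b hb ih =>
    have hb0 : (0 : ℝ) < b := by exact_mod_cast (by omega : 0 < b)
    have hb1 : (0 : ℝ) < ((b + 1 : ℕ) : ℝ) := by positivity
    rw [sum_Icc_succ_top (by omega), sum_Ico_succ_top hb]
    have h1 := hP (b + 1) (by omega)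
    have h2 : (∑ z ∈ range (b + 1), S z) / b ≤
        (∑ z ∈ range (b + 1), S z) / ((b + 1 : ℕ) : ℝ) + ε * (1 / b) := by
      have h3 : (∑ z ∈ range (b + 1), S z) / b =
          (∑ z ∈ range (b + 1), S z) / ((b + 1 : ℕ) : ℝ) +
            (∑ z ∈ range (b + 1), S z) / (((b + 1 : ℕ) : ℝ) * b) := by
        push_cast at hb1 ⊢
        field_simp
      rw [h3]
      have h4 : (∑ z ∈ range (b + 1), S z) / (((b + 1 : ℕ) : ℝ) * b) ≤
          ε * ((b + 1 : ℕ) : ℝ) / (((b + 1 : ℕ) : ℝ) * b) :=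
        div_le_div_of_nonneg_right h1 (by positivity)
      have h5 : ε * ((b + 1 : ℕ) : ℝ) / (((b + 1 : ℕ) : ℝ) * b) = ε * (1 / b) := by
        field_simp
      linarith
    have h6 : (∑ z ∈ range (b + 1 + 1), S z) / ((b + 1 : ℕ) : ℝ) =
        (∑ z ∈ range (b + 1), S z) / ((b + 1 : ℕ) : ℝ) + S (b + 1) / ((b + 1 : ℕ) : ℝ) := by
      rw [sum_range_succ _ (b + 1), add_div]
    rw [h6]
    linarith

/-- SWP. Averages over sub-windows: exchange of the sums. -/
theorem pf_SWP : W_SWP := by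
  classical
  intro B ε N₀ hB hε
  refine ⟨2, ?_⟩
  intro S X Y hS hsum hX hNY hY hYX
  have hYr : (1 : ℝ) ≤ Y := by exact_mod_cast hY
  have hYM : Y ≤ X.hi := by exact_mod_cast hYX
  have hlo := X.one_le
  have hle := X.le
  -- the small `n`
  have hsmall : ∑ n ∈ (Icc X.lo X.hi).filter (fun n => n < Y),
      1 / (n : ℝ) * ((∑ u ∈ Ico n (n + Y), S u) / Y) ≤ 2 * ε * (1 + X.L) := by
    have h1 : ∀ n ∈ (Icc X.lo X.hi).filter (fun n => n < Y),
        1 / (n : ℝ) * ((∑ u ∈ Ico n (n + Y), S u) / Y) ≤ 2 * ε * (1 / (n : ℝ)) := by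
      intro n hn
      rw [Finset.mem_filter, Finset.mem_Icc] at hn
      have h2 : ∑ u ∈ Ico n (n + Y), S u ≤ ∑ u ∈ range (2 * Y), S u := by
        apply Finset.sum_le_sum_of_subset_of_nonneg
        · intro u hu
          rw [Finset.mem_Ico] at hu
          rw [Finset.mem_range]
          omega
        · intro u _ _
          exact (hS u).1
      have h3 := hsum (2 * Y) (by omega)
      push_cast at h3
      have h4 : (∑ u ∈ Ico n (n + Y), S u) / Y ≤ 2 * ε := by
        rw [div_le_iff₀ (by linarith)]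
        linarith
      have h5 : 0 ≤ 1 / (n : ℝ) := by positivity
      calc 1 / (n : ℝ) * ((∑ u ∈ Ico n (n + Y), S u) / Y) ≤ 1 / (n : ℝ) * (2 * ε) :=
            mul_le_mul_of_nonneg_left h4 h5
        _ = 2 * ε * (1 / (n : ℝ)) := by ring
    refine (Finset.sum_le_sum h1).trans ?_
    rw [← Finset.mul_sum]
    apply mul_le_mul_of_nonneg_left _ (by positivity)
    calc ∑ n ∈ (Icc X.lo X.hi).filter (fun n => n < Y), 1 / (n : ℝ)
        ≤ ∑ n ∈ Icc X.lo X.hi, 1 / (n : ℝ) := by
          apply Finset.sum_le_sum_of_subset_of_nonneg (Finset.filter_subset _ _)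
          intro n _ _
          positivity
      _ ≤ 1 + X.L := wlg_one_le X
  -- the large `n`
  set a := max X.lo Y with ha
  have ha1 : 1 ≤ a := hlo.trans (le_max_left _ _)
  have hab : a ≤ 2 * X.hi := (max_le hle hYM).trans (by omega)
  have hPS : ∑ u ∈ Icc a (2 * X.hi), S u / u ≤ ε * (4 + X.L) := by
    have h1 := psum S (fun n => (hS n).1) ε a ha1
      (fun N hN => hsum N (hNY.trans ((le_max_right _ _).trans hN))) (2 * X.hi) hab
    have h2 := hsum (2 * X.hi + 1) (by omega)
    have hh : (1 : ℝ) ≤ X.hi := by exact_mod_cast hlo.trans hle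
    have h3 : (∑ z ∈ range (2 * X.hi + 1), S z) / ((2 * X.hi : ℕ) : ℝ) ≤ 2 * ε := by
      push_cast at h2 ⊢
      rw [div_le_iff₀ (by linarith)]
      nlinarith
    have h4 : ∑ u ∈ Ico a (2 * X.hi), 1 / (u : ℝ) ≤ 2 + X.L := by
      have h5 : ∑ u ∈ Ico a (2 * X.hi), 1 / (u : ℝ) ≤ ∑ u ∈ Icc a (2 * X.hi), (1 : ℝ) / u :=
        Finset.sum_le_sum_of_subset_of_nonneg Ico_subset_Icc_self fun n _ _ => by positivity
      have h6 := sum_Icc_le a (2 * X.hi) ha1 hab
      have h7 : (1 : ℝ) / a ≤ 1 := by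
        rw [div_le_one (by exact_mod_cast ha1)]
        exact_mod_cast ha1
      have h8 : Real.log ((2 * X.hi : ℕ) : ℝ) = Real.log 2 + Real.log X.hi := by
        push_cast
        rw [Real.log_mul two_ne_zero X.hi_pos.ne']
      have h9 : Real.log X.lo ≤ Real.log a :=
        Real.log_le_log X.lo_pos (by exact_mod_cast le_max_left _ _)
      have h10 := Real.log_two_lt_d9
      rw [h8] at h6
      unfold Wn.L
      linarith
    have h11 := mul_le_mul_of_nonneg_left h4 hε.le
    linarith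
  have hlarge : ∑ n ∈ (Icc X.lo X.hi).filter (fun n => ¬ n < Y),
      1 / (n : ℝ) * ((∑ u ∈ Ico n (n + Y), S u) / Y) ≤
        2 * ∑ u ∈ Icc a (2 * X.hi), S u / u := by
    have h1 : ∀ n ∈ (Icc X.lo X.hi).filter (fun n => ¬ n < Y),
        1 / (n : ℝ) * ((∑ u ∈ Ico n (n + Y), S u) / Y) ≤
          ∑ u ∈ Icc a (2 * X.hi), (if n ≤ u ∧ u < n + Y then 2 * (S u / u) / Y else 0) := by
      intro n hn
      rw [Finset.mem_filter, Finset.mem_Icc] at hn
      have e1 : 1 / (n : ℝ) * ((∑ u ∈ Ico n (n + Y), S u) / Y) =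
          ∑ u ∈ Ico n (n + Y), 1 / (n : ℝ) * S u / Y := by
        rw [← mul_div_assoc, Finset.mul_sum, Finset.sum_div]
      rw [e1]
      have h2 : ∀ u ∈ Ico n (n + Y), 1 / (n : ℝ) * S u / Y ≤ 2 * (S u / u) / Y := by
        intro u hu
        rw [Finset.mem_Ico] at hu
        have hn0 : (0 : ℝ) < n := by exact_mod_cast hlo.trans hn.1.1
        have hu0 : (0 : ℝ) < u := by
          have : 0 < u := by omega
          exact_mod_cast this
        have hun : (u : ℝ) ≤ 2 * n := by
          have : u ≤ 2 * n := by omega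
          exact_mod_cast this
        apply div_le_div_of_nonneg_right _ (by linarith)
        have h3 : 1 / (n : ℝ) ≤ 2 / u := by
          rw [div_le_div_iff₀ hn0 hu0]
          linarith
        calc 1 / (n : ℝ) * S u ≤ 2 / u * S u := mul_le_mul_of_nonneg_right h3 (hS u).1
          _ = 2 * (S u / u) := by ring
      refine (Finset.sum_le_sum h2).trans ?_
      rw [← Finset.sum_filter]
      apply Finset.sum_le_sum_of_subset_of_nonneg
      · intro u hu
        rw [Finset.mem_Ico] at hu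
        rw [Finset.mem_filter, Finset.mem_Icc]
        refine ⟨⟨max_le (by omega) (by omega), by omega⟩, hu.1, hu.2⟩
      · intro u _ _
        have := (hS u).1
        positivity
    refine (Finset.sum_le_sum h1).trans ?_
    rw [Finset.sum_comm, Finset.mul_sum]
    apply Finset.sum_le_sum
    intro u hu
    have hSu := (hS u).1
    rw [← Finset.sum_filter, Finset.sum_const, nsmul_eq_mul]
    have hcard : ((((Icc X.lo X.hi).filter (fun n => ¬ n < Y)).filter
        (fun n => n ≤ u ∧ u < n + Y)).card : ℝ) ≤ Y := by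
      have h3 : ((Icc X.lo X.hi).filter (fun n => ¬ n < Y)).filter
          (fun n => n ≤ u ∧ u < n + Y) ⊆ Ioc (u - Y) u := by
        intro n hn
        rw [Finset.mem_filter, Finset.mem_filter, Finset.mem_Icc] at hn
        rw [Finset.mem_Ioc]
        omega
      have h4 := Finset.card_le_card h3
      rw [Nat.card_Ioc] at h4
      have h5 : u - (u - Y) ≤ Y := by omega
      exact_mod_cast h4.trans h5
    have h6 : 0 ≤ 2 * (S u / u) / Y := by positivity
    calc _ ≤ (Y : ℝ) * (2 * (S u / u) / Y) := mul_le_mul_of_nonneg_right hcard h6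
      _ = 2 * (S u / u) := by field_simp
  rw [← Finset.sum_filter_add_sum_filter_not (Icc X.lo X.hi) (fun n => n < Y)]
  nlinarith

end Pool.Agent.H40.NW.SWP
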